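import Pool.Agent.helper21.UB.Spec

/-!
Module EUC of project ub: (MP_6cfeb2_co): the Hurwitz order is norm-Euclidean: every rational quaternion is at
distance (norm) less than one from an element of the Hurwitz order.
-/

set_option autoImplicit false

open Quaternion

namespace Pool.Agent.helper21.UB

theorem EUC_sq_le (r : ℚ) : (r - round r) ^ 2 ≤ 1 / 4 := by
  have h := abs_sub_round r
  have h0 := abs_nonneg (r - round r)
  rw [← sq_abs]
  nlinarith

theorem EUC_half (r : ℚ) (h : (r - round r) ^ 2 = 1 / 4) : ∃ n : ℤ, r = n + 1 / 2 := by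
  have h1 : (r - round r - 1 / 2) * (r - round r + 1 / 2) = 0 := by linarith [h, sq (r - (round r : ℚ))]
  rcases mul_eq_zero.mp h1 with h2 | h2
  · exact ⟨round r, by linarith⟩
  · exact ⟨round r - 1, by push_cast; linarith⟩

theorem EUC : EUC_stmt := by
  intro x
  by_cases hx : x ∈ Hz
  · exact ⟨x, hx, by simp⟩
  · refine ⟨⟨round x.re, round x.imI, round x.imJ, round x.imK⟩, Or.inl ⟨_, _, _, _, rfl, rfl, rfl, rfl⟩, ?_⟩
    rw [Quaternion.normSq_def']
    simp only [Quaternion.re_sub, Quaternion.imI_sub, Quaternion.imJ_sub, Quaternion.imK_sub]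
    have h1 := EUC_sq_le x.re
    have h2 := EUC_sq_le x.imI
    have h3 := EUC_sq_le x.imJ
    have h4 := EUC_sq_le x.imK
    by_contra hlt
    push Not at hlt
    obtain ⟨a, ha⟩ := EUC_half x.re (by linarith)
    obtain ⟨b, hb⟩ := EUC_half x.imI (by linarith)
    obtain ⟨c, hc⟩ := EUC_half x.imJ (by linarith)
    obtain ⟨d, hd⟩ := EUC_half x.imK (by linarith)
    exact hx (Or.inr ⟨a, b, c, d, ha, hb, hc, hd⟩)

end Pool.Agent.helper21.UB
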